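import Pool.Agent.Helper18_X2.Stmts
import Pool.Agent.Helper96_PP.Asm

/-!
# AWC, part X2, module VC: two generators of the outer part suffice
-/

open scoped BigOperators

noncomputable section

namespace Pool.Agent.PP.X2.H29

open Pool.Agent.Helper51_AWC Pool.Agent.Helper79_WRA Pool.Agent.PP Pool.Agent.PP.H94
open Pool.Agent.PP.H66 (pgroup_le psub_eq YY_top_eq card_lt inv_trans posx)

/-- VC with all hypotheses -/
theorem vc_aux (main : MainCStmt) (hclm : ClmStmt) (hAdd : AddStmt) (hFr : FrStmt)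
    (hPs5 : Ps5Stmt) (hSum : SumStmt) (hDbln : DblnStmt) (hRst : RstStmt) : VcStmt := by
  intro ℓ _ F _ hF 𝒜 hcl H _ _ hg
  suffices key : ∀ n : ℕ, ∀ (S : Type) [Group S] [Finite S], NonabSimple S → ℓ ∣ Nat.card S →
      𝒜 S → ∀ (D : Type) [Group D] [Finite D], Nat.card (D ⧸ Subgroup.center D) = n →
      opCore ℓ D = ⊥ → NearlySimpleL ℓ D S → Involves H (D ⧸ Subgroup.center D) →
      ∀ e : D → F, IsIdem e →
      (∀ z ∈ Subgroup.center D, z ≠ 1 → ∃ c : F, c ≠ 1 ∧ ∀ x, e (z * x) = c * e x) →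
      Pos ℓ e ⊤ → YY ℓ ⊤ e = 0 by
    intro S _ _ hS hd hI D _ _ hO hns hID e he hz hp
    exact key _ S hS hd hI D rfl hO hns hID e he hz hp
  intro n
  induction n using Nat.strong_induction_on with
  | _ n IH =>
  intro S _ _ hS hd hI D _ _ hn hO hns hID e0 he0 hz0 hp0
  obtain ⟨T0, hT1, hT2, hT3, hT4, hT5⟩ := hns
  by_cases h2 : ∃ a b : D ⧸ Subgroup.center D, T0 ⊔ Subgroup.closure {a, b} = ⊤
  · exact hg S hS hd hI D hO ⟨T0, hT1, hT2, hT3, hT4, hT5, h2⟩ hID e0 he0 hz0 hp0
  have hMn : (T0.comap (QuotientGroup.mk' (Subgroup.center D))).Normal := hT1.comap _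
  set M : Subgroup D := T0.comap (QuotientGroup.mk' (Subgroup.center D)) with hM
  have hMi : ¬ ℓ ∣ M.index := by
    rw [hM, Subgroup.index_comap_of_surjective _ (QuotientGroup.mk'_surjective _)]
    exact hT5
  -- the homomorphism to `S`
  have hMS : ∃ f : M →* S, Function.Surjective f ∧ f.ker ≤ Subgroup.center M := by
    obtain ⟨ε⟩ := hT3
    let q : M →* T0 := ((QuotientGroup.mk' (Subgroup.center D)).comp M.subtype).codRestrict T0
      fun x => x.2
    have hqs : Function.Surjective q := by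
      rintro ⟨t, ht⟩
      obtain ⟨x, hx⟩ := QuotientGroup.mk'_surjective (Subgroup.center D) t
      refine ⟨⟨x, ?_⟩, Subtype.ext hx⟩
      show QuotientGroup.mk' (Subgroup.center D) x ∈ T0
      rw [hx]
      exact ht
    refine ⟨ε.toMonoidHom.comp q, ε.surjective.comp hqs, ?_⟩
    intro x hx
    have h0 : q x = 1 := by
      apply ε.injective
      rw [map_one]
      exact hx
    have h1 : QuotientGroup.mk' (Subgroup.center D) (x : D) = 1 := congrArg Subtype.val h0
    have h3 : (x : D) ∈ Subgroup.center D := (QuotientGroup.eq_one_iff _).1 h1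
    rw [Subgroup.mem_center_iff]
    intro y
    exact Subtype.ext (Subgroup.mem_center_iff.1 h3 y)
  -- the induction
  have good : ∀ (L H₁ : Type) [Group L] [Group H₁] (p : L →* D ⧸ Subgroup.center D),
      p.ker ≤ Subgroup.center L → p.range ≠ ⊤ →
      (∀ (A S' : Type) [Group A] [Group S'] (T' : Subgroup A), IsSocle T' S' → Involves H₁ A →
        Involves L A) → Hyp ℓ F 𝒜 H₁ := by
    intro L H₁ _ _ p hpk hpr hQL S' _ _ hS' hd' hI' D' _ _ hO' hns' hID' e' he' hz' hp'
    obtain ⟨T', hT'⟩ := hns'.nearlySimple.socle hS'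
    have h3 : Involves L (D' ⧸ Subgroup.center D') := hQL _ S' T' hT' hID'
    have h4 : Involves p.range (D' ⧸ Subgroup.center D') := by
      refine hT'.involves_central p.rangeRestrict ?_ h3
      rw [MonoidHom.ker_rangeRestrict]
      exact hpk
    refine IH (Nat.card (D' ⧸ Subgroup.center D')) ?_ S' hS' hd' hI' D' rfl hO' hns'
      (inv_trans hID h4.of_subgroup) e' he' hz' hp'
    rw [← hn]
    exact card_lt hpr h4
  -- reduction to blocks
  refine hAdd ℓ F hF D ⊤ inferInstance e0 he0 fun e he hee => ?_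
  have hp : Pos ℓ e ⊤ := hPs5 ℓ F hF D ⊤ inferInstance e0 e he0 he.1 hee hp0
  obtain ⟨b, hb0, hb, hbe⟩ := H46.exists_blk he.2.1 M
  obtain ⟨f1, f2, f3, f4⟩ := hFr ℓ F hF D M ⊤ hMn inferInstance le_top e he hp b hb0 hb hbe
    (stabF b) (fun g => Iff.rfl)
  rw [f4]
  set T := stabF b with hT
  have hMT : M ≤ T := by
    intro g hgN x
    by_cases hx : x ∈ M
    · exact hb.1.1 ⟨x, hx⟩ ⟨g, hgN⟩
    · have hx' : g * x * g⁻¹ ∉ M := by
        intro h
        apply hx
        have := hMn.conj_mem _ h g⁻¹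
        have e2 : g⁻¹ * (g * x * g⁻¹) * g⁻¹⁻¹ = x := by group
        rwa [e2] at this
      rw [hb0 _ hx, hb0 _ hx']
  let MT : Subgroup T := M.subgroupOf T
  have hMTn : MT.Normal := hMn.subgroupOf T
  let ι : MT ≃* M := Subgroup.subgroupOfEquivOfLe hMT
  let bT : T → F := fun t => b t
  have hbTM : IsBlk (fun t : MT => bT t) := H18.blk_equiv ι hb
  have hbT0 : ∀ x, x ∉ MT → bT x = 0 := fun x hx => hb0 x (fun h => hx h)
  have hbTc : IsCl bT := fun x y => y.2 x
  have hsb : SBlk MT bT := ⟨hbT0, hbTc, hbTM⟩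
  let eT : T → F := fun t => mulF e b t
  have hbb : mulF b b = b := by
    have h1 := H75.mulF_res M b hb0
    funext x
    by_cases hx : x ∈ M
    · have h2 := congrFun h1 ⟨x, hx⟩
      have h3 : mulF b b x = mulF (fun t : M => b t) (fun t : M => b t) ⟨x, hx⟩ := h2
      rw [h3, hb.1.2]
    · rw [hb0 x hx]
      exact H75.mulF_supp M hb0 hb0 x hx
  have hmul : mulF eT bT = eT := by
    have h1 := H75.mulF_res T (a := mulF e b) b f1
    have h2 : mulF (mulF e b) b = mulF e b := by
      apply ma_injective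
      rw [ma_mul, ma_mul, mul_assoc, ← ma_mul, hbb]
    rw [h2] at h1
    exact h1.symm
  have heT : eT ≠ 0 := by
    intro h0
    apply hbe
    funext x
    by_cases hx : x ∈ T
    · exact congrFun h0 ⟨x, hx⟩
    · exact f1 x hx
  have htop : (⊤ : Subgroup D).subgroupOf T = ⊤ := Subgroup.top_subgroupOf T
  rw [htop] at f3 ⊢
  have hMTi : ¬ ℓ ∣ MT.index := by
    intro h
    exact hMi (h.trans (Subgroup.relIndex_dvd_index_of_normal M T))
  rw [YY_top_eq (Fact.out : ℓ.Prime) hMTi]
  have hndz : ¬ DZ ℓ (fun t : MT => bT t) := fun hdz =>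
    heT (posx hF MT hMTi hbT0 hbTc hdz f2 hmul f3)
  obtain ⟨τ, hτ⟩ := H59.exists_lift ℓ F hF
  have hall : DAll τ ℓ MT bT := by
    intro x y hx hxy
    set L : Subgroup T := MT ⊔ Subgroup.closure {x, y} with hL
    have hML : MT ≤ L := le_sup_left
    have hxL : x ∈ L := (le_sup_right : _ ≤ L) (Subgroup.subset_closure (Set.mem_insert _ _))
    have hyL : y ∈ L := (le_sup_right : _ ≤ L)
      (Subgroup.subset_closure (Set.mem_insert_of_mem _ rfl))
    obtain ⟨r1, r2, r3⟩ := hRst ℓ F hF τ T MT hMTn bT hsb L hML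
    refine r3 ⟨x, hxL⟩ ⟨y, hyL⟩ ?_
    let j : MT.subgroupOf L ≃* MT := Subgroup.subgroupOfEquivOfLe hML
    have hdzL : ¬ DZ ℓ (fun t : MT.subgroupOf L => (fun t : L => bT t) t) := by
      intro h
      exact hndz (dz_equiv j h)
    have hYn : (MT.subgroupOf L).Normal := hMTn.subgroupOf L
    refine hDbln ℓ F hF τ hτ L (MT.subgroupOf L) hYn _ r1 hdzL ?_ _ _ ?_ ?_
    · intro H₁ _ _ Q₁ hQ₁ hiso hmu hnil hemb
      obtain ⟨ε⟩ := hiso
      obtain ⟨i, hi⟩ := hemb
      have hcls : Cls ℓ 𝒜 Q₁ := by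
        refine hclm ℓ 𝒜 S hS hd hI H₁ Q₁ hQ₁ ?_
        obtain ⟨f, hf1, hf2⟩ := hMS
        set κ : Q₁ ≃* M := (ε.trans j).trans ι
        refine ⟨f.comp κ.toMonoidHom, hf1.comp κ.surjective, ?_⟩
        intro x hx
        have h3 : κ x ∈ f.ker := hx
        have h4 := hf2 h3
        rw [Subgroup.mem_center_iff] at h4 ⊢
        intro y
        apply κ.injective
        rw [map_mul, map_mul]
        exact h4 (κ y)
      refine main ℓ F hF 𝒜 hcl H₁ Q₁ hQ₁ hcls (good L H₁
        ((QuotientGroup.mk' (Subgroup.center D)).comp (T.subtype.comp L.subtype)) ?_ ?_ ?_)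
      · intro z hz
        have h1 : QuotientGroup.mk' (Subgroup.center D) ((z : T) : D) = 1 := hz
        have h3 : ((z : T) : D) ∈ Subgroup.center D := (QuotientGroup.eq_one_iff _).1 h1
        rw [Subgroup.mem_center_iff]
        intro w
        exact Subtype.ext (Subtype.ext (Subgroup.mem_center_iff.1 h3 w))
      · intro htop'
        apply h2
        refine ⟨QuotientGroup.mk' (Subgroup.center D) (x : D),
          QuotientGroup.mk' (Subgroup.center D) (y : D), ?_⟩
        rw [eq_top_iff, ← htop']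
        rintro _ ⟨w, rfl⟩
        have h3 : L ≤ (T0 ⊔ Subgroup.closure {QuotientGroup.mk' (Subgroup.center D) (x : D),
            QuotientGroup.mk' (Subgroup.center D) (y : D)}).comap
            ((QuotientGroup.mk' (Subgroup.center D)).comp T.subtype) := by
          rw [hL]
          refine sup_le ?_ ?_
          · intro v hv
            exact (le_sup_left : T0 ≤ _) hv
          · rw [Subgroup.closure_le]
            rintro v (rfl | rfl)
            · exact (le_sup_right : _ ≤ T0 ⊔ _) (Subgroup.subset_closure (Set.mem_insert _ _))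
            · exact (le_sup_right : _ ≤ T0 ⊔ _)
                (Subgroup.subset_closure (Set.mem_insert_of_mem _ rfl))
        exact h3 w.2
      · intro A S' _ _ T' hT' hA
        exact hT'.involves_prod i hi hA
    · obtain ⟨s, hs, h3⟩ := hx
      exact ⟨s, hs, (r2 _).2 h3⟩
    · rw [r2]
      exact hxy
  rw [hSum ℓ F hF τ hτ T MT hMTn bT hsb hall eT f2 hmul, mul_zero]

/-- VC: two generators of the outer part suffice. -/
theorem vc (main : MainCStmt) (hclm : ClmStmt) (_hhyt : HytStmt) : VcStmt :=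
  vc_aux main hclm H9.addStmt H96.fr_ Pool.Agent.AWR.H39.ps5 H96.sum_ H96.dbln_ H20.rst

end Pool.Agent.PP.X2.H29
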